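import Pool.Agent.Lib.H38S.Three
import Pool.Agent.Lib.H99E.ExplicitGen

/-! # H38S, file Gen: generating words, all levels -/

set_option autoImplicit false

namespace H38S

open Pool.H87G H87L

/-- `I` relations suffice to know two letters of the alphabet `X` together (level 3). -/
def Cr (X I : Type) : Prop :=
  ∃ (u : I → X → ZMod 3) (v : I → X → ZMod 2), ∀ (Ω : Type) (K : Pred Ω), Sys 3 Ω K →
    ∀ x y : Ω → X, K _ x → K _ y → (∀ i, K _ fun z => (u i (x z), v i (y z))) → K _ fun z => (x z, y z)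

/-- The words `g i (x)`, `i ∈ I`, with letters in `Z`, suffice to know the letter `x` of the alphabet `X` (level `N`). -/
def Ge (N : ℕ) (X I Z : Type) : Prop :=
  ∃ g : I → X → Z, ∀ (Ω : Type) (K : Pred Ω), Sys N Ω K → ∀ x : Ω → X, (∀ i, K _ fun z => g i (x z)) → K _ x

theorem cr_bool : Cr Bool (Fin 1) := by
  refine ⟨fun _ b => if b then 1 else 0, fun _ b => if b then 1 else 0, fun Ω K hK x y hx hy h => ?_⟩
  have hinj : Function.Injective fun p : Bool × Bool =>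
      ((if p.1 then 1 else 0 : ZMod 3), (if p.2 then 1 else 0 : ZMod 2)) := by decide
  exact of_inj hK hinj (h 0)

theorem cr_grid {X I : Type} [Finite X] {k C n : ℕ} (hC : 0 < C) (e : (Fin k → Fin C) → Fin n → Bool)
    (he : Function.Injective e) (h : Cr X I) :
    Cr ((Fin k → Fin C) → X) (((Fin k → Fin (2 * C)) × Fin (k * C ^ 2 + 1) × Option (Fin n)) × I) := by
  obtain ⟨u, v, huv⟩ := h
  refine ⟨fun p => la hC e (fun c => p.1.1 c) p.1.2.1 p.1.2.2 (fun i (w : (Fin k → Fin C) → X) => u p.2 (w i)),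
    fun p => lb hC e (fun c => p.1.1 c) p.1.2.1 p.1.2.2 (fun i (w : (Fin k → Fin C) → X) => v p.2 (w i)),
    fun Ω K hK x y hx hy h => ?_⟩
  refine join hK hx hy fun i j => huv Ω K hK _ _ (hK.comp _ _ _ (fun w => w i) hx) (hK.comp _ _ _ (fun w => w j) hy)
    fun t => ?_
  have h3 : ∀ a : ((Fin k → Fin C) → X) → ZMod 3, a + a + a = 0 := by
    intro a
    funext w
    have : ∀ c : ZMod 3, c + c + c = 0 := by decide
    exact this (a w)
  have h2 : ∀ a : ((Fin k → Fin C) → X) → ZMod 2, a + a = 0 := by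
    intro a
    funext w
    have : ∀ c : ZMod 2, c + c = 0 := by decide
    exact this (a w)
  exact grid hC (bi_of hK hx hy) h3 h2 (fun i (w : (Fin k → Fin C) → X) => u t (w i))
    (fun i (w : (Fin k → Fin C) → X) => v t (w i)) e he (fun s r o => h ((s, r, o), t)) i j

theorem cr_emb {X Y I : Type} (h : Cr X I) (e : Y → X) (he : Function.Injective e) : Cr Y I := by
  obtain ⟨u, v, huv⟩ := h
  refine ⟨fun i y => u i (e y), fun i y => v i (e y), fun Ω K hK x y hx hy h => ?_⟩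
  have h1 := huv Ω K hK (fun z => e (x z)) (fun z => e (y z)) (hK.comp _ _ _ e hx) (hK.comp _ _ _ e hy) h
  exact of_inj hK (e := Prod.map e e) (he.prodMap he) h1

theorem ge_bool : Ge 3 Bool (Fin 1) (ZMod 3 × ZMod 2) := by
  refine ⟨fun _ b => (if b then 1 else 0, 0), fun Ω K hK x h => ?_⟩
  have hinj : Function.Injective fun b : Bool => ((if b then 1 else 0 : ZMod 3), (0 : ZMod 2)) := by decide
  exact of_inj hK hinj (h 0)

theorem ge_sq {X I J : Type} (h : Ge 3 X I (ZMod 3 × ZMod 2)) (hc : Cr X J) :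
    Ge 3 (X × X) ((I ⊕ I) ⊕ J) (ZMod 3 × ZMod 2) := by
  obtain ⟨g, hg⟩ := h
  obtain ⟨u, v, huv⟩ := hc
  refine ⟨fun s => s.elim (fun s => s.elim (fun i p => g i p.1) (fun i p => g i p.2))
    (fun j p => (u j p.1, v j p.2)), fun Ω K hK x h => ?_⟩
  have h1 : K _ fun z => (x z).1 := hg Ω K hK _ fun i => h (Sum.inl (Sum.inl i))
  have h2 : K _ fun z => (x z).2 := hg Ω K hK _ fun i => h (Sum.inl (Sum.inr i))
  exact huv Ω K hK _ _ h1 h2 fun j => h (Sum.inr j)

theorem ge_emb {N : ℕ} {X Y I Z : Type} (h : Ge N X I Z) (e : Y → X) (he : Function.Injective e) : Ge N Y I Z := by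
  obtain ⟨g, hg⟩ := h
  exact ⟨fun i y => g i (e y), fun Ω K hK x h => of_inj hK he (hg Ω K hK (fun z => e (x z)) h)⟩

theorem ge_alph {N : ℕ} {X I Z Z' : Type} (h : Ge N X I Z) (e : Z → Z') (he : Function.Injective e) : Ge N X I Z' := by
  obtain ⟨g, hg⟩ := h
  exact ⟨fun i y => e (g i y), fun Ω K hK x h => hg Ω K hK x fun i => of_inj hK he (h i)⟩

/-- One more bit. -/
theorem ge_step {N : ℕ} (hN : 2 ≤ N) {X I J Z : Type} [Nonempty Z] (h' : Ge (N + 1) X J (Z × Bool)) (h : Ge N X I Z) :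
    Ge (N + 1) (X × Bool) (J ⊕ (I ⊕ Unit)) (Z × Bool) := by
  obtain ⟨g', hg'⟩ := h'
  obtain ⟨g, hg⟩ := h
  obtain ⟨z0⟩ := ‹Nonempty Z›
  refine ⟨fun s => s.elim (fun j p => g' j p.1) (fun s => s.elim (fun i p => (g i p.1, p.2)) (fun _ p => (z0, p.2))),
    fun Ω K hK x h => ?_⟩
  have hx : K _ fun z => (x z).1 := hg' Ω K hK _ fun j => h (Sum.inl j)
  have he : K _ fun z => (x z).2 :=
    hK.comp (Z × Bool) Bool (fun z => (z0, (x z).2)) Prod.snd (h (Sum.inr (Sum.inr ())))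
  have h1 := hg Ω (Rel K (fun z => (x z).1) (fun z => (x z).2)) (sys_rel hN hK hx he) (fun z => (x z).1) fun i =>
    ⟨fun z z' hz => congrArg (g i) hz, h (Sum.inr (Sum.inl i))⟩
  exact h1.2

/-- size version of `Cr` -/
def CrN (N c : ℕ) : Prop := ∃ (I : Type) (_ : Fintype I), Fintype.card I = c ∧ Cr (Fin N) I

/-- size version of `Ge`: level, size of the alphabet of `x`, number of words, size of their alphabet -/
def GeN (N M m q : ℕ) : Prop := ∃ (I : Type) (_ : Fintype I), Fintype.card I ≤ m ∧ Ge N (Fin M) I (Fin q)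

theorem inj_of_le {X Y : Type} [Fintype X] [Fintype Y] (h : Fintype.card Y ≤ Fintype.card X) :
    ∃ e : Y → X, Function.Injective e := by
  obtain ⟨e⟩ := Function.Embedding.nonempty_of_card_le h
  exact ⟨e, e.injective⟩

theorem crN_two : CrN 2 1 := by
  obtain ⟨e, he⟩ := inj_of_le (X := Bool) (Y := Fin 2) (by simp)
  exact ⟨Fin 1, inferInstance, by simp, cr_emb cr_bool e he⟩

theorem crN_grid {N M c k C : ℕ} (hC : 0 < C) (h : CrN N c) (hM : M ≤ N ^ C ^ k) :
    CrN M ((2 * C) ^ k * (k * C ^ 2 + 1) * (k * Nat.clog 2 C + 1) * c) := by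
  obtain ⟨I, hI, hc, h⟩ := h
  obtain ⟨e, he⟩ := inj_of_le (X := Fin (k * Nat.clog 2 C) → Bool) (Y := Fin k → Fin C) (by
    simp only [Fintype.card_fun, Fintype.card_fin, Fintype.card_bool]
    rw [mul_comm k, pow_mul]
    exact Nat.pow_le_pow_left (Nat.le_pow_clog (by norm_num) C) k)
  obtain ⟨e', he'⟩ := inj_of_le (X := (Fin k → Fin C) → Fin N) (Y := Fin M) (by simpa using hM)
  refine ⟨((Fin k → Fin (2 * C)) × Fin (k * C ^ 2 + 1) × Option (Fin (k * Nat.clog 2 C))) × I, inferInstance, ?_,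
    cr_emb (cr_grid hC e he h) e' he'⟩
  simp only [Fintype.card_prod, Fintype.card_fun, Fintype.card_fin, Fintype.card_option, hc]
  ring

theorem crN_cc (i : ℕ) : CrN (2 ^ 2 ^ i) (H99E.cc i) := by
  refine crN_grid (by positivity) crN_two ?_
  refine Nat.pow_le_pow_right (by norm_num) ?_
  rw [← pow_mul]
  exact Nat.pow_le_pow_right (by norm_num) (Nat.lt_succ_sqrt i).le

theorem card6 : Fintype.card (ZMod 3 × ZMod 2) = 6 := by
  rw [Fintype.card_prod, ZMod.card, ZMod.card]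

theorem geN_two : GeN 3 2 1 6 := by
  obtain ⟨e, he⟩ := inj_of_le (X := Bool) (Y := Fin 2) (by simp)
  obtain ⟨e', he'⟩ := inj_of_le (X := Fin 6) (Y := ZMod 3 × ZMod 2) (by rw [card6]; simp)
  exact ⟨Fin 1, inferInstance, by simp, ge_alph (ge_emb ge_bool e he) e' he'⟩

theorem geN_le {N M M' m m' q : ℕ} (h : GeN N M m q) (hM : M' ≤ M) (hm : m ≤ m') : GeN N M' m' q := by
  obtain ⟨I, hI, hc, h⟩ := h
  exact ⟨I, hI, hc.trans hm, ge_emb h (Fin.castLE hM) (Fin.castLE_injective hM)⟩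

theorem geN_sq {N M m c : ℕ} (h : GeN 3 N m 6) (h' : CrN N c) (hM : M ≤ N * N) : GeN 3 M (2 * m + c) 6 := by
  obtain ⟨I, hI, hc, h⟩ := h
  obtain ⟨J, hJ, hc', h'⟩ := h'
  obtain ⟨e, he⟩ := inj_of_le (X := Fin N × Fin N) (Y := Fin M) (by simpa using hM)
  obtain ⟨e1, he1⟩ := inj_of_le (X := Fin 6) (Y := ZMod 3 × ZMod 2) (by rw [card6]; simp)
  obtain ⟨e2, he2⟩ := inj_of_le (X := ZMod 3 × ZMod 2) (Y := Fin 6) (by rw [card6]; simp)
  refine ⟨(I ⊕ I) ⊕ J, inferInstance, ?_, ge_alph (ge_emb (ge_sq (ge_alph h e2 he2) h') e he) e1 he1⟩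
  simp only [Fintype.card_sum]
  omega

/-- the number of words of level 3 -/
def TW : ℕ → ℕ
  | 0 => 1
  | i + 1 => 2 * TW i + H99E.cc i

theorem geN_TW (i : ℕ) : GeN 3 (2 ^ 2 ^ i) (TW i) 6 := by
  induction i with
  | zero => simpa [TW] using geN_two
  | succ i ih =>
    exact geN_sq ih (crN_cc i) (le_of_eq (by rw [← pow_add, pow_succ]; congr 1; ring))

theorem TW_ge (i : ℕ) : 2 ^ i ≤ TW i := by
  induction i with
  | zero => simp [TW]
  | succ i ih =>
    have h : TW (i + 1) = 2 * TW i + H99E.cc i := rfl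
    rw [h, pow_succ]
    omega

theorem geN_step {N M m m' q : ℕ} (hN : 2 ≤ N) (hq : 0 < q) (h' : GeN (N + 1) M m' (q * 2)) (h : GeN N M m q) :
    GeN (N + 1) (2 * M) (m' + (m + 1)) (q * 2) := by
  obtain ⟨J, hJ, hc', h'⟩ := h'
  obtain ⟨I, hI, hc, h⟩ := h
  obtain ⟨e, he⟩ := inj_of_le (X := Fin M × Bool) (Y := Fin (2 * M)) (by simp [mul_comm])
  obtain ⟨e1, he1⟩ := inj_of_le (X := Fin (q * 2)) (Y := Fin q × Bool) (by simp)
  obtain ⟨e2, he2⟩ := inj_of_le (X := Fin q × Bool) (Y := Fin (q * 2)) (by simp)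
  have : Nonempty (Fin q) := ⟨⟨0, hq⟩⟩
  refine ⟨J ⊕ (I ⊕ Unit), inferInstance, ?_, ge_alph (ge_emb (ge_step hN (ge_alph h' e2 he2) h) e he) e1 he1⟩
  simp only [Fintype.card_sum, Fintype.card_unit]
  omega

theorem geN_one (N q : ℕ) : GeN N 1 0 q :=
  ⟨Fin 0, inferInstance, by simp, fun i => i.elim0, fun Ω K hK x _ => hK.const _ _ fun z z' => Subsingleton.elim _ _⟩

/-- the number of words on the level `k + 3` for at most `2 ^ i` bits -/
theorem geN_all (k : ℕ) : ∀ i L : ℕ, L ≤ 2 ^ i → GeN (k + 3) (2 ^ L) ((2 ^ i + 1) ^ k * (TW i + 1)) (6 * 2 ^ k) := by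
  induction k with
  | zero =>
    intro i L hL
    refine geN_le (geN_TW i) (Nat.pow_le_pow_right (by norm_num) hL) ?_
    rw [pow_zero, one_mul]
    exact Nat.le_succ _
  | succ k ih =>
    intro i L hL
    obtain ⟨B, hB⟩ : ∃ B, B = (2 ^ i + 1) ^ k * (TW i + 1) := ⟨_, rfl⟩
    have key : ∀ L, L ≤ 2 ^ i → GeN (k + 3 + 1) (2 ^ L) (L * (B + 1)) (6 * 2 ^ k * 2) := by
      intro L
      induction L with
      | zero =>
        intro _
        rw [zero_mul, pow_zero]
        exact geN_one _ _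
      | succ L ihL =>
        intro h
        have h1 := geN_step (by omega) (by positivity) (ihL (by omega)) (ih i L (by omega))
        rw [← hB] at h1
        refine geN_le h1 (le_of_eq (by rw [pow_succ, mul_comm])) (le_of_eq (by ring))
    have h1 := key L hL
    have h2 : 2 ^ i ≤ B := by
      rw [hB]
      calc 2 ^ i ≤ 1 * (TW i + 1) := by have := TW_ge i; omega
        _ ≤ (2 ^ i + 1) ^ k * (TW i + 1) := Nat.mul_le_mul_right _ (Nat.one_le_pow _ _ (by omega))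
    have h3 : L * (B + 1) ≤ (2 ^ i + 1) ^ (k + 1) * (TW i + 1) := by
      calc L * (B + 1) ≤ 2 ^ i * (B + 1) := Nat.mul_le_mul_right _ hL
        _ = 2 ^ i * B + 2 ^ i := by ring
        _ ≤ 2 ^ i * B + B := by omega
        _ = (2 ^ i + 1) ^ (k + 1) * (TW i + 1) := by rw [hB, pow_succ]; ring
    have h4 : 6 * 2 ^ k * 2 = 6 * 2 ^ (k + 1) := by rw [pow_succ]; ring
    rw [h4] at h1
    exact geN_le h1 le_rfl h3

end H38S
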