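import Pool.Agent.Lib.H38S.Gen
import Pool.Agent.Lib.H87L.Level

/-! # H38S, file Main: the bound on all levels (MP_73a90e_al) -/

set_option autoImplicit false

namespace H38S

open Pool.H87G H87L

/-- The rule follows from a condition on the power with the index set `{0, 1} ^ N`. -/
theorem rule_of' {N : ℕ} {F : Set (POp Bool)} (hF : Generates F (Lev N)) {Ω : Type} {S : Set (Ω → Bool)}
    (hS : Closed F S) : LRule N S := by
  intro v hv G
  have h1 : Closed F {G : (Fin N → Bool) → Bool | (fun z => G (fun l => v l z)) ∈ S} := by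
    intro f hf s hs hd
    exact hS f hf (fun i z => s i (fun l => v l z)) hs (fun z => hd fun l => v l z)
  have h2 := hF _ h1 (fun G hG => hv G hG)
  have h3 : G ∈ {G : (Fin N → Bool) → Bool | (fun z => G (fun l => v l z)) ∈ S} := by
    rw [h2]
    exact Set.mem_univ _
  exact h3

theorem d_le' {F : Set (POp Bool)} {N : ℕ} (hN : 1 ≤ N) (hF : Generates F (Lev N)) {n m q : ℕ} (h : GeN N n m q) :
    d F n ≤ m * 2 ^ q + 2 := by
  classical
  obtain ⟨I, hI, hc, g, hg⟩ := h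
  obtain ⟨gg, hgg⟩ : ∃ gg : (I × (Fin q → Bool)) ⊕ Bool → Fin n → Bool,
      gg = Sum.elim (fun p z => p.2 (g p.1 z)) (fun c _ => c) := ⟨_, rfl⟩
  have h1 : Generates F ((Finset.univ.image gg : Finset (Fin n → Bool)) : Set (Fin n → Bool)) := by
    intro S hS hX
    have hmem : ∀ s, gg s ∈ S := fun s => hX (by simp)
    have hc : ∀ c : Bool, (fun _ => c) ∈ S := fun c => by
      have := hmem (Sum.inr c)
      rwa [hgg] at this
    have hK := sys_of hN (rule_of' hF hS) hc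
    apply Set.eq_univ_of_forall
    intro f
    exact hg (Fin n) (Kn S) hK id (fun i φ => by
      have := hmem (Sum.inl (i, φ))
      rwa [hgg] at this) f
  calc d F n ≤ (Finset.univ.image gg).card := Nat.sInf_le ⟨_, rfl, h1⟩
    _ ≤ Fintype.card ((I × (Fin q → Bool)) ⊕ Bool) := Finset.card_image_le
    _ = Fintype.card I * 2 ^ q + 2 := by simp
    _ ≤ m * 2 ^ q + 2 := by
      have := Nat.mul_le_mul_right (2 ^ q) hc
      omega

/-- the level goes up -/
theorem lev_succ {F : Set (POp Bool)} {N : ℕ} (hN : 1 ≤ N) (hF : Generates F (Lev N)) : Generates F (Lev (N + 1)) := by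
  intro S hS hX
  have hc : ∀ c : Bool, (fun _ => c) ∈ S := fun c => hX ⟨⟨0, by omega⟩, fun _ _ _ => rfl⟩
  have hK := sys_of hN (rule_of' hF hS) hc
  obtain ⟨w, hw⟩ : ∃ w : (Fin (N + 1) → Bool) → Fin N → Bool × Bool,
      w = fun z i => (z i.castSucc, if i.1 + 1 = N then z (Fin.last N) else false) := ⟨_, rfl⟩
  have hinj : Function.Injective w := by
    intro z z' h
    rw [hw] at h
    funext j
    by_cases hj : j.1 < N
    · have h1 := congrFun h ⟨j.1, hj⟩
      rw [Prod.mk.injEq] at h1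
      exact h1.1
    · have hj' : j = Fin.last N := Fin.ext (by have := j.2; simp only [Fin.val_last]; omega)
      have h1 := congrFun h ⟨N - 1, by omega⟩
      rw [Prod.mk.injEq] at h1
      have h2 : N - 1 + 1 = N := by omega
      simp only [h2, if_true] at h1
      rw [hj']
      exact h1.2
  have h1 : Kn S (Fin (N + 1) → Bool) id := by
    refine of_inj hK hinj (hK.rule (Bool × Bool) (false, false) w fun l F => hX ?_)
    by_cases hl : l.1 + 1 = N
    · refine ⟨Fin.last N, fun y z hyz => ?_⟩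
      refine congrArg F (funext fun i : Fin N => ?_)
      show (if i = l then ((false, false) : Bool × Bool) else w y i) = if i = l then (false, false) else w z i
      by_cases hi : i = l
      · rw [if_pos hi, if_pos hi]
      · have h3 : ¬ (i.1 + 1 = N) := fun h4 => hi (Fin.ext (by omega))
        have h5 : y i.castSucc = z i.castSucc := hyz _ (fun h6 => by
          have := congrArg Fin.val h6
          simp only [Fin.val_castSucc, Fin.val_last] at this
          have := i.2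
          omega)
        rw [if_neg hi, if_neg hi, hw]
        simp only [h3, if_false, h5]
    · refine ⟨l.castSucc, fun y z hyz => ?_⟩
      refine congrArg F (funext fun i : Fin N => ?_)
      show (if i = l then ((false, false) : Bool × Bool) else w y i) = if i = l then (false, false) else w z i
      by_cases hi : i = l
      · rw [if_pos hi, if_pos hi]
      · have h5 : y i.castSucc = z i.castSucc := hyz _ (fun h6 => hi (Fin.castSucc_injective N h6))
        have h7 : y (Fin.last N) = z (Fin.last N) := hyz _ (fun h6 => by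
          have := congrArg Fin.val h6
          simp only [Fin.val_castSucc, Fin.val_last] at this
          have := l.2
          omega)
        rw [if_neg hi, if_neg hi, hw]
        simp only [h5, h7]
  apply Set.eq_univ_of_forall
  intro G
  exact h1 G

theorem exists_level' (F : Set (POp Bool)) {n : ℕ} (hn : 3 ≤ n) (hd : 2 * d F n < n) :
    ∃ N, 3 ≤ N ∧ Generates F (Lev N) := by
  obtain ⟨N, hN, h⟩ := exists_level F hn hd
  have h1 : Generates F (Lev (N + 1)) := lev_succ hN h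
  have h2 : Generates F (Lev (N + 1 + 1)) := lev_succ (by omega) h1
  exact ⟨N + 1 + 1, by omega, h2⟩

theorem TW_le (i : ℕ) : TW i ≤ 2 ^ i * 2 ^ (10 * Nat.sqrt i + 7) := by
  have h := H99E.T_gen_le' (A := 1) H99E.cc TW (fun i => by rw [one_mul]; exact H99E.cc_le i) le_rfl
    (fun i => le_rfl) i
  rwa [one_mul] at h

theorem d_nat {F : Set (POp Bool)} {k : ℕ} (hF : Generates F (Lev (k + 3))) {i n : ℕ} (h : n ≤ 2 ^ 2 ^ i) :
    d F n ≤ 2 ^ (6 * 2 ^ k + k + 9) * ((2 ^ i) ^ (k + 1) * 2 ^ (10 * Nat.sqrt i)) := by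
  have h1 := d_le' (by omega) hF (geN_le (geN_all k i (2 ^ i) le_rfl) h le_rfl)
  have h2 := TW_le i
  obtain ⟨a, ha⟩ : ∃ a, a = 2 ^ i := ⟨_, rfl⟩
  obtain ⟨b, hb⟩ : ∃ b, b = 2 ^ (10 * Nat.sqrt i) := ⟨_, rfl⟩
  have ha1 : 1 ≤ a := by rw [ha]; exact Nat.one_le_two_pow
  have hb1 : 1 ≤ b := by rw [hb]; exact Nat.one_le_two_pow
  have hab : 1 ≤ a * b := Nat.mul_pos ha1 hb1
  have h3 : TW i + 1 ≤ 2 ^ 8 * (a * b) := by
    rw [pow_add, ← ha, ← hb] at h2
    have : a * (b * 2 ^ 7) = 2 ^ 7 * (a * b) := by ring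
    omega
  have h4 : (a + 1) ^ k ≤ 2 ^ k * a ^ k := by
    rw [← mul_pow]
    exact Nat.pow_le_pow_left (by omega) k
  rw [← ha] at h1
  rw [← ha, ← hb]
  obtain ⟨q, hq⟩ : ∃ q, q = 2 ^ (6 * 2 ^ k) := ⟨_, rfl⟩
  have hq2 : 2 ≤ q := by
    rw [hq]
    calc 2 = 2 ^ 1 := (pow_one 2).symm
      _ ≤ 2 ^ (6 * 2 ^ k) := Nat.pow_le_pow_right (by norm_num) (by have := Nat.one_le_two_pow (n := k); omega)
  rw [← hq] at h1
  have h5 : (a + 1) ^ k * (TW i + 1) ≤ (2 ^ k * a ^ k) * (2 ^ 8 * (a * b)) := Nat.mul_le_mul h4 h3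
  obtain ⟨W, hW⟩ : ∃ W, W = (2 ^ k * a ^ k) * (2 ^ 8 * (a * b)) := ⟨_, rfl⟩
  rw [← hW] at h5
  have hW1 : 1 ≤ W := by
    have ha0 : 0 < a := ha1
    have hb0 : 0 < b := hb1
    rw [hW]
    exact Nat.succ_le_of_lt (by positivity)
  calc d F n ≤ (a + 1) ^ k * (TW i + 1) * q + 2 := h1
    _ ≤ W * q + W * q := Nat.add_le_add (Nat.mul_le_mul_right _ h5) (le_trans hq2 (by
      calc q = 1 * q := (one_mul q).symm
        _ ≤ W * q := Nat.mul_le_mul_right _ hW1))
    _ = 2 ^ (6 * 2 ^ k + k + 9) * (a ^ (k + 1) * b) := by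
      rw [hW, hq, pow_succ a k]
      rw [show 6 * 2 ^ k + k + 9 = 6 * 2 ^ k + (k + 9) by ring, pow_add 2 (6 * 2 ^ k), pow_add 2 k]
      ring

/-- The bound on the level `N = k + 3`. -/
theorem main_k {F : Set (POp Bool)} {k : ℕ} (hF : Generates F (Lev (k + 3))) (n : ℕ) (hn : 2 ≤ n) :
    (d F n : ℝ) ≤ 2 ^ (6 * 2 ^ k + 3 * k + 31) * Real.logb 2 n ^ (k + 1) *
      2 ^ (10 * √(Real.logb 2 (Real.logb 2 n))) := by
  obtain ⟨i, hi⟩ : ∃ i, i = Nat.clog 2 (Nat.clog 2 n) := ⟨_, rfl⟩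
  have h1 : n ≤ 2 ^ 2 ^ i := by
    rw [hi]
    calc n ≤ 2 ^ Nat.clog 2 n := Nat.le_pow_clog (by norm_num) n
      _ ≤ 2 ^ 2 ^ Nat.clog 2 (Nat.clog 2 n) :=
        Nat.pow_le_pow_right (by norm_num) (Nat.le_pow_clog (by norm_num) _)
  have h2 := d_nat hF h1
  have h3 := H99E.two_pow_clog_le n hn
  rw [← hi] at h3
  have hl1 : 1 ≤ Real.logb 2 n := by
    rw [Real.le_logb_iff_rpow_le (by norm_num) (by exact_mod_cast (by omega : 0 < n)), Real.rpow_one]
    exact_mod_cast hn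
  obtain ⟨l, hl⟩ : ∃ l, l = Real.logb 2 (n : ℝ) := ⟨_, rfl⟩
  rw [← hl] at h3 hl1 ⊢
  have hLL : 0 ≤ Real.logb 2 l := Real.logb_nonneg (by norm_num) hl1
  have h4 : (i : ℝ) ≤ 2 + Real.logb 2 l := by
    have h5 : Real.logb 2 ((2 : ℝ) ^ i) ≤ Real.logb 2 (4 * l) :=
      Real.logb_le_logb_of_le (by norm_num) (by positivity) h3
    rw [Real.logb_pow, Real.logb_self_eq_one (by norm_num), mul_one,
      Real.logb_mul (by norm_num) (by linarith)] at h5
    have h6 : Real.logb 2 4 = 2 := by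
      rw [show (4 : ℝ) = 2 ^ (2 : ℕ) by norm_num, Real.logb_pow, Real.logb_self_eq_one (by norm_num)]
      norm_num
    linarith
  have h5 : ((Nat.sqrt i : ℕ) : ℝ) ≤ 2 + √(Real.logb 2 l) := by
    have h6 : ((Nat.sqrt i : ℕ) : ℝ) ^ 2 ≤ i := by
      have := Nat.sqrt_le i
      have h7 : ((Nat.sqrt i * Nat.sqrt i : ℕ) : ℝ) ≤ i := by exact_mod_cast this
      push_cast at h7
      nlinarith
    have h7 : 0 ≤ √(Real.logb 2 l) := Real.sqrt_nonneg _
    have h8 : √(Real.logb 2 l) ^ 2 = Real.logb 2 l := Real.sq_sqrt hLL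
    have h9 : ((Nat.sqrt i : ℕ) : ℝ) ^ 2 ≤ (2 + √(Real.logb 2 l)) ^ 2 := by nlinarith
    exact (pow_le_pow_iff_left₀ (Nat.cast_nonneg _) (by linarith) two_ne_zero).1 h9
  have h6 : (2 : ℝ) ^ (10 * Nat.sqrt i) ≤ 2 ^ 20 * 2 ^ (10 * √(Real.logb 2 l)) := by
    rw [← Real.rpow_natCast, ← Real.rpow_natCast 2 20, ← Real.rpow_add (by norm_num)]
    refine Real.rpow_le_rpow_of_exponent_le (by norm_num) ?_
    push_cast
    linarith
  have h7 : ((2 : ℝ) ^ i) ^ (k + 1) ≤ (4 * l) ^ (k + 1) := pow_le_pow_left₀ (by positivity) h3 _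
  calc (d F n : ℝ) ≤ (2 : ℝ) ^ (6 * 2 ^ k + k + 9) * (((2 : ℝ) ^ i) ^ (k + 1) * 2 ^ (10 * Nat.sqrt i)) := by
        exact_mod_cast h2
    _ ≤ (2 : ℝ) ^ (6 * 2 ^ k + k + 9) * ((4 * l) ^ (k + 1) * (2 ^ 20 * 2 ^ (10 * √(Real.logb 2 l)))) :=
      mul_le_mul_of_nonneg_left (mul_le_mul h7 h6 (by positivity) (by positivity)) (by positivity)
    _ = 2 ^ (6 * 2 ^ k + 3 * k + 31) * l ^ (k + 1) * 2 ^ (10 * √(Real.logb 2 l)) := by
      rw [mul_pow, show (4 : ℝ) ^ (k + 1) = 2 ^ (2 * k + 2) by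
        rw [show (4 : ℝ) = 2 ^ 2 by norm_num, ← pow_mul]
        congr 1]
      rw [show 6 * 2 ^ k + 3 * k + 31 = (6 * 2 ^ k + k + 9) + ((2 * k + 2) + 20) by ring,
        pow_add 2 (6 * 2 ^ k + k + 9), pow_add 2 (2 * k + 2)]
      ring

/-- The bound on the level `N ≥ 3`. -/
theorem main {F : Set (POp Bool)} {N : ℕ} (hN : 3 ≤ N) (hF : Generates F (Lev N)) (n : ℕ) (hn : 2 ≤ n) :
    (d F n : ℝ) ≤ 2 ^ (2 ^ N + 3 * N + 22) * Real.logb 2 n ^ (N - 2) *
      2 ^ (10 * √(Real.logb 2 (Real.logb 2 n))) := by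
  obtain ⟨k, rfl⟩ : ∃ k, N = k + 3 := ⟨N - 3, by omega⟩
  have h := main_k hF n hn
  have hl0 : 0 ≤ Real.logb 2 n := Real.logb_nonneg (by norm_num) (by exact_mod_cast (by omega : 1 ≤ n))
  have h1 : 6 * 2 ^ k + 3 * k + 31 ≤ 2 ^ (k + 3) + 3 * (k + 3) + 22 := by
    rw [pow_add]
    have := Nat.one_le_two_pow (n := k)
    omega
  have h2 : k + 3 - 2 = k + 1 := by omega
  rw [h2]
  refine h.trans (mul_le_mul_of_nonneg_right (mul_le_mul_of_nonneg_right ?_ (pow_nonneg hl0 _)) (by positivity))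
  exact pow_le_pow_right₀ (by norm_num) h1

end H38S
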