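import Pool.Agent.Lib.H38P.Base
import Pool.Agent.Lib.H87L.Level

/-! # H38S, file Prod: the partial algebras `A_k` (as in UnboundedLogFactor, MP_73a90e_al) have the level `k + 1` -/

set_option autoImplicit false

namespace H38S

open Pool.H87G H87L

/-- the nonempty proper subsets of `{0, …, k}` -/
abbrev Sub (k : ℕ) : Type := {T : Finset (Fin (k + 1)) // T.Nonempty ∧ T ≠ Finset.univ}

/-- The partial product: its arguments are numbered by the nonempty proper subsets `T` of `{0, …, k}`; it is defined
if for some `a 0, …, a k` the argument number `T` is the product of the `a i`, `i ∈ T`, for every `T`; its value is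
the product of all arguments (for `k ≥ 1` this is `a 0 ⋯ a k`). -/
noncomputable def prod (k : ℕ) : POp Bool where
  ar := Fintype.card (Sub k)
  dom := {v | ∃ a : Fin (k + 1) → Bool, ∀ T : Sub k, v (Fintype.equivFin (Sub k) T) = decide (∀ i ∈ T.1, a i = true)}
  fn := fun v => decide (∀ j, v j = true)

/-- the partial algebra `A_k` (its operations; the underlying set is `Bool`) -/
def Alg (k : ℕ) : Set (POp Bool) := {H38P.one, H38P.add, prod k}

/-- `A_k` has the level `k + 1`. -/
theorem alg_lev {k : ℕ} (hk : 1 ≤ k) : Generates (Alg k) (Lev (k + 1)) := by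
  intro S hS hX
  have h0 : (fun _ => false) ∈ S := hX ⟨⟨0, by omega⟩, fun _ _ _ => rfl⟩
  have hadd : ∀ f g : (Fin (k + 1) → Bool) → Bool, f ∈ S → g ∈ S → (fun z => xor (f z) (g z)) ∈ S := by
    intro f g hf hg
    exact hS H38P.add (Or.inr (Or.inl rfl)) (![f, g] : Fin 2 → (Fin (k + 1) → Bool) → Bool) (by
      intro (i : Fin 2)
      fin_cases i
      · exact hf
      · exact hg) (fun _ => Set.mem_univ _)
  apply Set.eq_univ_of_forall
  intro F
  refine H38P.of_points h0 hadd (fun q f hf => ?_) F
  have h1 := hS (prod k) (Or.inr (Or.inr rfl))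
    (fun (j : Fin (Fintype.card (Sub k))) (z : Fin (k + 1) → Bool) =>
      decide (∀ i ∈ ((Fintype.equivFin (Sub k)).symm j).1, decide (z i = q i) = true))
    (fun j => by
      refine hX ?_
      obtain ⟨T, hT⟩ : ∃ T, T = (Fintype.equivFin (Sub k)).symm j := ⟨_, rfl⟩
      rw [← hT]
      obtain ⟨l, hl⟩ : ∃ l, l ∉ T.1 := by
        by_contra hcon
        push Not at hcon
        exact T.2.2 (Finset.eq_univ_iff_forall.2 hcon)
      refine ⟨l, fun y z hyz => ?_⟩
      rw [decide_eq_decide]
      refine forall₂_congr fun i hi => ?_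
      rw [hyz i fun h => hl (h ▸ hi)])
    (fun z => ⟨fun i => decide (z i = q i), fun T => by
      show decide (∀ i ∈ ((Fintype.equivFin (Sub k)).symm (Fintype.equivFin (Sub k) T)).1,
        decide (z i = q i) = true) = _
      rw [Equiv.symm_apply_apply]⟩)
  have h2 : (fun z => (prod k).fn fun j =>
      decide (∀ i ∈ ((Fintype.equivFin (Sub k)).symm j).1, decide (z i = q i) = true)) = f := by
    funext z
    rw [Bool.eq_iff_iff, hf]
    show decide (∀ j : Fin (Fintype.card (Sub k)), decide (∀ i ∈ ((Fintype.equivFin (Sub k)).symm j).1,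
      decide (z i = q i) = true) = true) = true ↔ z = q
    rw [decide_eq_true_iff]
    constructor
    · intro h
      funext i
      have hs : ({i} : Finset (Fin (k + 1))).Nonempty ∧ ({i} : Finset (Fin (k + 1))) ≠ Finset.univ := by
        refine ⟨Finset.singleton_nonempty i, fun h => ?_⟩
        have h1 := congrArg Finset.card h
        rw [Finset.card_singleton, Finset.card_univ, Fintype.card_fin] at h1
        omega
      have h3 := h (Fintype.equivFin (Sub k) ⟨{i}, hs⟩)
      rw [Equiv.symm_apply_apply, decide_eq_true_iff] at h3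
      have h4 := h3 i (Finset.mem_singleton_self i)
      exact of_decide_eq_true h4
    · rintro rfl j
      rw [decide_eq_true_iff]
      intro i _
      exact decide_eq_true rfl
  rw [← h2]
  exact h1

end H38S
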