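import Pool.Agent.Lib.H87G.C1

/-! # H38S, file Sys: systems of known words of level `N` (MP_73a90e_al)

A system on `Ω` is a class `K` of words `x : Ω → X` which contains the constants, is closed under composition, and has
the rule of level `N`: if any `N - 1` of `N` letters are known together, then the `N` letters are known together. -/

set_option autoImplicit false

namespace H38S

open Pool.H87G

/-- a system of known words of level `N`; the letter number `l` is left out by putting a constant in its place -/
structure Sys (N : ℕ) (Ω : Type) (K : (X : Type) → (Ω → X) → Prop) : Prop where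
  const : ∀ (X : Type) (x : Ω → X), (∀ z z', x z = x z') → K X x
  comp : ∀ (X Y : Type) (x : Ω → X) (e : X → Y), K X x → K Y fun z => e (x z)
  rule : ∀ (Z : Type) [Finite Z] (c : Z) (w : Ω → Fin N → Z),
    (∀ l, K (Fin N → Z) fun z i => if i = l then c else w z i) → K (Fin N → Z) w

/-- all functions of `x` are there -/
def Kn {Ω : Type} (V : Set (Ω → Bool)) (X : Type) (x : Ω → X) : Prop := ∀ F : X → Bool, (fun z => F (x z)) ∈ V

theorem of_inj {N : ℕ} {Ω : Type} {K : (X : Type) → (Ω → X) → Prop} (hK : Sys N Ω K) {X Y : Type} {x : Ω → X}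
    {e : X → Y} (he : Function.Injective e) (h : K Y fun z => e (x z)) : K X x := by
  by_cases hΩ : Nonempty Ω
  · obtain ⟨z0⟩ := hΩ
    have : Nonempty X := ⟨x z0⟩
    have h1 := hK.comp _ _ _ (Function.invFun e) h
    have h2 : (fun z => Function.invFun e (e (x z))) = x := by
      funext z
      exact Function.leftInverse_invFun he (x z)
    rwa [h2] at h1
  · exact hK.const X x fun z => (hΩ ⟨z⟩).elim

/-- The known words of a family with the rule `LRule N` form a system. -/
theorem sys_of {Ω : Type} [Finite Ω] {N : ℕ} (hN : 1 ≤ N) {V : Set (Ω → Bool)} (hV : LRule N V)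
    (hc : ∀ c : Bool, (fun _ => c) ∈ V) : Sys N Ω (Kn V) where
  const := by
    intro X x hx F
    by_cases hΩ : Nonempty Ω
    · obtain ⟨z0⟩ := hΩ
      have h1 : (fun z => F (x z)) = fun _ => F (x z0) := by
        funext z
        rw [hx z z0]
      rw [h1]
      exact hc _
    · have h1 : (fun z => F (x z)) = fun _ => true := by
        funext z
        exact (hΩ ⟨z⟩).elim
      rw [h1]
      exact hc _
  comp := fun X Y x e h F => h fun p => F (e p)
  rule := by
    intro Z _ c w h
    classical
    obtain ⟨F0, hF0⟩ : ∃ F0 : Set (Ω → Bool), F0 = {f | ∃ s, ∃ g : Z → Bool, f = fun z => g (w z s)} := ⟨_, rfl⟩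
    have hne : F0.Nonempty := ⟨_, by rw [hF0]; exact ⟨⟨0, by omega⟩, fun _ => true, rfl⟩⟩
    have hPi : PiProp N V F0 := by
      rintro v hv G ⟨j, hj⟩
      rw [hF0] at hv
      choose s g hsg using hv
      obtain ⟨l, hl⟩ : ∃ l : Fin N, ∀ i, i ≠ j → s i ≠ l := by
        by_contra hcon
        push Not at hcon
        have hsurj : Function.Surjective fun i : {i : Fin N // i ≠ j} => s i := fun l => by
          obtain ⟨i, hi, hil⟩ := hcon l
          exact ⟨⟨i, hi⟩, hil⟩
        have h1 := Fintype.card_le_of_surjective _ hsurj
        have h2 : Fintype.card {i : Fin N // i ≠ j} < Fintype.card (Fin N) :=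
          Fintype.card_subtype_lt (x := j) (by simp)
        omega
      have h1 := h l fun p => G fun i => if i = j then false else g i (p (s i))
      have e : (fun z => G fun i => v i z) =
          fun z => G fun i => if i = j then false else g i (if s i = l then c else w z (s i)) := by
        funext z
        apply hj
        intro i hi
        rw [if_neg hi, if_neg (hl i hi), hsg i]
      rw [e]
      exact h1
    intro F
    have : Fintype (Fin N × Z) := Fintype.ofFinite _
    obtain ⟨σ⟩ : Nonempty (Fin (Fintype.card (Fin N × Z)) ≃ Fin N × Z) := ⟨(Fintype.equivFin _).symm⟩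
    obtain ⟨enc, henc⟩ : ∃ enc : (Fin N → Z) → Fin (Fintype.card (Fin N × Z)) → Bool,
        enc = fun w i => decide (w (σ i).1 = (σ i).2) := ⟨_, rfl⟩
    have hinj : Function.Injective enc := by
      intro w w' hw
      funext s
      have h1 := congrFun hw (σ.symm (s, w s))
      rw [henc] at h1
      simp only [Equiv.apply_symm_apply, decide_true] at h1
      exact (of_decide_eq_true h1.symm).symm
    have h1 := C1 (r := N) hN V hV F0 hne hPi (Fintype.card (Fin N × Z))
      (fun i z => enc (w z) i) (fun i => by
        rw [hF0, henc]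
        exact ⟨(σ i).1, fun t => decide (t = (σ i).2), rfl⟩) (Function.extend enc F fun _ => false)
    have e : (fun z => Function.extend enc F (fun _ => false) fun i => enc (w z) i) = fun z => F (w z) := by
      funext z
      exact hinj.extend_apply F _ (w z)
    rw [e] at h1
    exact h1

theorem of_fac {N : ℕ} {Ω : Type} {K : (X : Type) → (Ω → X) → Prop} (hK : Sys N Ω K) {A X : Type} {x : Ω → A}
    {w : Ω → X} (hx : K A x) (h : ∀ z z', x z = x z' → w z = w z') : K X w := by
  by_cases hΩ : Nonempty Ω
  · obtain ⟨z0⟩ := hΩ
    have h1 := hK.comp _ _ _ (Function.extend x w fun _ => w z0) hx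
    have h2 : (fun z => Function.extend x w (fun _ => w z0) (x z)) = w := by
      funext z
      exact Function.FactorsThrough.extend_apply (fun a b hab => h a b hab) _ z
    rwa [h2] at h1
  · exact hK.const X w fun z => (hΩ ⟨z⟩).elim

/-- the words which are functions of `x` and are known together with `e` -/
def Rel {Ω : Type} (K : (X : Type) → (Ω → X) → Prop) {A E : Type} (x : Ω → A) (e : Ω → E) (X : Type) (w : Ω → X) :
    Prop :=
  (∀ z z', x z = x z' → w z = w z') ∧ K (X × E) fun z => (w z, e z)

/-- The relative system has the level one less. -/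
theorem sys_rel {Ω : Type} {N : ℕ} (hN : 2 ≤ N) {K : (X : Type) → (Ω → X) → Prop} (hK : Sys (N + 1) Ω K)
    {A E : Type} [Finite E] {x : Ω → A} {e : Ω → E} (hx : K A x) (he : K E e) : Sys N Ω (Rel K x e) where
  const := by
    intro X w hw
    refine ⟨fun z z' _ => hw z z', ?_⟩
    exact of_fac hK he fun z z' h => by rw [hw z z', h]
  comp := by
    rintro X Y w g ⟨hf, h⟩
    exact ⟨fun z z' hz => congrArg g (hf z z' hz), hK.comp _ _ _ (fun p : X × E => (g p.1, p.2)) h⟩
  rule := by
    intro Z _ c w h
    have hw : ∀ z z', x z = x z' → w z = w z' := by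
      intro z z' hz
      funext i
      obtain ⟨l, hl⟩ : ∃ l : Fin N, i ≠ l := by
        by_cases h0 : i.1 = 0
        · exact ⟨⟨1, by omega⟩, fun h1 => by have := congrArg Fin.val h1; simp at this; omega⟩
        · exact ⟨⟨0, by omega⟩, fun h1 => by have := congrArg Fin.val h1; simp at this; omega⟩
      have h1 : (if i = l then c else w z i) = (if i = l then c else w z' i) := congrFun ((h l).1 z z' hz) i
      rwa [if_neg hl, if_neg hl] at h1
    refine ⟨hw, ?_⟩
    obtain ⟨D, hD⟩ : ∃ D : (Fin N → Z) × E → Fin (N + 1) → Z ⊕ E,
        D = fun (p : (Fin N → Z) × E) (i : Fin (N + 1)) =>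
          if h : i.1 < N then Sum.inl (p.1 ⟨i.1, h⟩) else Sum.inr p.2 := ⟨_, rfl⟩
    have hinj : Function.Injective D := by
      rintro ⟨p, t⟩ ⟨p', t'⟩ h1
      rw [hD] at h1
      refine Prod.ext (funext fun i => ?_) ?_
      · have h2 := congrFun h1 ⟨i.1, by omega⟩
        simpa using h2
      · have h2 := congrFun h1 ⟨N, by omega⟩
        simpa using h2
    refine of_inj hK hinj (hK.rule (Z ⊕ E) (Sum.inl c) _ fun l => ?_)
    by_cases hl : l.1 < N
    · have h1 := hK.comp _ _ _ D (h ⟨l.1, hl⟩).2
      have h2 : (fun z => D ((fun i => if i = (⟨l.1, hl⟩ : Fin N) then c else w z i), e z)) =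
          fun z i => if i = l then Sum.inl c else D (w z, e z) i := by
        funext z i
        rw [hD]
        by_cases hi : i.1 < N
        · by_cases hil : i = l
          · subst hil
            simp [hi]
          · have h3 : ¬ ((⟨i.1, hi⟩ : Fin N) = ⟨l.1, hl⟩) := fun h4 => hil (Fin.ext (Fin.mk.inj h4))
            simp [hi, hil, h3]
        · have hil : i ≠ l := fun h3 => hi (h3 ▸ hl)
          simp [hi, hil]
      rw [h2] at h1
      exact h1
    · have h1 : K (Fin (N + 1) → Z ⊕ E) fun z i => if i = l then Sum.inl c else D (w z, e z) i := by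
        refine of_fac hK hx fun z z' hz => ?_
        funext i
        by_cases hil : i = l
        · rw [if_pos hil, if_pos hil]
        · have hi : i.1 < N := by
            have h3 := i.2
            have h4 := l.2
            have h5 : i.1 ≠ l.1 := fun h6 => hil (Fin.ext h6)
            omega
          rw [if_neg hil, if_neg hil, hD]
          simp only [hi, dif_pos, hw z z' hz]
      exact h1

end H38S
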