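import Pool.Agent.Lib.H38S.Sys
import Pool.Agent.Lib.H87L.Geo

/-! # H38S, file Three: the level 3 for systems of words (as in H87L, which has it for families of functions) -/

set_option autoImplicit false

namespace H38S

open H87L

/-- a system on `Ω` as a predicate -/
abbrev Pred (Ω : Type) : Type 1 := (X : Type) → (Ω → X) → Prop

theorem tri {Ω : Type} {K : Pred Ω} (hK : Sys 3 Ω K) {P P' Q : Type} [Finite P] [Finite P'] [Finite Q]
    {p : Ω → P} {p' : Ω → P'} {q : Ω → Q} (h1 : K _ fun z => (p z, p' z)) (h2 : K _ fun z => (p z, q z))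
    (h3 : K _ fun z => (p' z, q z)) : K _ fun z => (p z, p' z, q z) := by
  obtain ⟨en, hen⟩ : ∃ en : P × P' × Q → Fin 3 → Option (P ⊕ (P' ⊕ Q)),
      en = fun w => ![some (Sum.inl w.1), some (Sum.inr (Sum.inl w.2.1)), some (Sum.inr (Sum.inr w.2.2))] := ⟨_, rfl⟩
  have hinj : Function.Injective en := by
    rintro ⟨a, b, c⟩ ⟨a', b', c'⟩ hw
    rw [hen] at hw
    have e0 := congrFun hw 0
    have e1 := congrFun hw 1
    have e2 := congrFun hw 2
    simp at e0 e1 e2
    rw [e0, e1, e2]
  refine of_inj hK hinj (hK.rule _ none _ fun l => ?_)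
  fin_cases l
  · have h := hK.comp _ _ _ (fun (w : P' × Q) (i : Fin 3) =>
      (![none, some (Sum.inr (Sum.inl w.1)), some (Sum.inr (Sum.inr w.2))] : Fin 3 → Option (P ⊕ (P' ⊕ Q))) i) h3
    refine Eq.mp (congrArg (K _) ?_) h
    funext z i
    rw [hen]
    fin_cases i <;> simp
  · have h := hK.comp _ _ _ (fun (w : P × Q) (i : Fin 3) =>
      (![some (Sum.inl w.1), none, some (Sum.inr (Sum.inr w.2))] : Fin 3 → Option (P ⊕ (P' ⊕ Q))) i) h2
    refine Eq.mp (congrArg (K _) ?_) h
    funext z i
    rw [hen]
    fin_cases i <;> simp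
  · have h := hK.comp _ _ _ (fun (w : P × P') (i : Fin 3) =>
      (![some (Sum.inl w.1), some (Sum.inr (Sum.inl w.2)), none] : Fin 3 → Option (P ⊕ (P' ⊕ Q))) i) h1
    refine Eq.mp (congrArg (K _) ?_) h
    funext z i
    rw [hen]
    fin_cases i <;> simp

/-- Pairwise known letters form a known word. -/
theorem pw {Ω : Type} {K : Pred Ω} (hK : Sys 3 Ω K) {S Z : Type} [Finite S] [Finite Z]
    (x : Ω → S → Z) (h : ∀ s t, K _ fun z => (x z s, x z t)) : K _ x := by
  classical
  have : Fintype S := Fintype.ofFinite S
  -- the word `x` restricted to `T`, with `none` outside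
  have key : ∀ n : ℕ, ∀ T : Finset S, T.card = n → K _ fun z s => if s ∈ T then some (x z s) else none := by
    intro n
    induction n using Nat.strong_induction_on with
    | _ n ih =>
      intro T hT
      by_cases h2 : n ≤ 2
      · -- at most two letters
        by_cases h0 : T = ∅
        · refine hK.const _ _ fun z z' => ?_
          funext s
          rw [h0]
          simp
        · obtain ⟨a, ha⟩ := Finset.nonempty_iff_ne_empty.2 h0
          obtain ⟨b, hb⟩ : ∃ b, ∀ s ∈ T, s = a ∨ s = b := by
            by_cases h1 : (T.erase a).Nonempty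
            · obtain ⟨b, hb⟩ := h1
              refine ⟨b, fun s hs => ?_⟩
              by_contra hcon
              push Not at hcon
              have h3 : ({s, a, b} : Finset S) ⊆ T := by
                intro t ht
                simp only [Finset.mem_insert, Finset.mem_singleton] at ht
                rcases ht with rfl | rfl | rfl
                · exact hs
                · exact ha
                · exact Finset.mem_of_mem_erase hb
              have h4 := Finset.card_le_card h3
              rw [Finset.card_insert_of_notMem (by simp [hcon.1, hcon.2]),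
                Finset.card_insert_of_notMem (by
                  rw [Finset.mem_singleton]
                  exact (Finset.ne_of_mem_erase hb).symm), Finset.card_singleton] at h4
              omega
            · refine ⟨a, fun s hs => Or.inl ?_⟩
              by_contra hcon
              exact h1 ⟨s, Finset.mem_erase.2 ⟨hcon, hs⟩⟩
          refine of_fac hK (h a b) fun z z' hz => ?_
          rw [Prod.mk.injEq] at hz
          funext s
          by_cases hs : s ∈ T
          · rw [if_pos hs, if_pos hs]
            rcases hb s hs with rfl | rfl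
            · rw [hz.1]
            · rw [hz.2]
          · rw [if_neg hs, if_neg hs]
      · -- split off two letters
        obtain ⟨a, ha⟩ : T.Nonempty := Finset.card_pos.1 (by omega)
        have hTa : (T.erase a).card = n - 1 := by rw [Finset.card_erase_of_mem ha, hT]
        obtain ⟨b, hb⟩ : (T.erase a).Nonempty := Finset.card_pos.1 (by omega)
        have hTb : (T.erase b).card = n - 1 := by
          rw [Finset.card_erase_of_mem (Finset.mem_of_mem_erase hb), hT]
        have k1 := ih (n - 1) (by omega) _ hTa
        have k2 := ih (n - 1) (by omega) _ hTb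
        obtain ⟨w, hw⟩ : ∃ w : Ω → S → Option Z,
            w = fun z s => if s ∈ (T.erase a).erase b then some (x z s) else none := ⟨_, rfl⟩
        have m1 : K _ fun z => (x z a, w z) := by
          refine of_fac hK k2 fun z z' hz => ?_
          have hz' := fun s => congrFun hz s
          refine Prod.ext ?_ (funext fun s => ?_)
          · have h3 := hz' a
            have h4 : a ∈ T.erase b := Finset.mem_erase.2 ⟨(Finset.ne_of_mem_erase hb).symm, ha⟩
            rw [if_pos h4, if_pos h4] at h3
            exact Option.some.inj h3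
          · rw [hw]
            simp only
            by_cases hs : s ∈ (T.erase a).erase b
            · have h3 := hz' s
              have h4 : s ∈ T.erase b := Finset.mem_erase.2 ⟨Finset.ne_of_mem_erase hs,
                Finset.mem_of_mem_erase (Finset.mem_of_mem_erase hs)⟩
              rw [if_pos h4, if_pos h4] at h3
              rw [if_pos hs, if_pos hs, h3]
            · rw [if_neg hs, if_neg hs]
        have m2 : K _ fun z => (x z b, w z) := by
          refine of_fac hK k1 fun z z' hz => ?_
          have hz' := fun s => congrFun hz s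
          refine Prod.ext ?_ (funext fun s => ?_)
          · have h3 := hz' b
            rw [if_pos hb, if_pos hb] at h3
            exact Option.some.inj h3
          · rw [hw]
            simp only
            by_cases hs : s ∈ (T.erase a).erase b
            · have h3 := hz' s
              have h4 : s ∈ T.erase a := Finset.mem_of_mem_erase hs
              rw [if_pos h4, if_pos h4] at h3
              rw [if_pos hs, if_pos hs, h3]
            · rw [if_neg hs, if_neg hs]
        have m3 := tri hK (h a b) m1 m2
        refine of_fac hK m3 fun z z' hz => ?_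
        rw [Prod.mk.injEq, Prod.mk.injEq] at hz
        funext s
        by_cases hs : s ∈ T
        · rw [if_pos hs, if_pos hs]
          by_cases h3 : s = a
          · rw [h3, hz.1]
          by_cases h4 : s = b
          · rw [h4, hz.2.1]
          have h5 := congrFun hz.2.2 s
          rw [hw] at h5
          have h6 : s ∈ (T.erase a).erase b := Finset.mem_erase.2 ⟨h4, Finset.mem_erase.2 ⟨h3, hs⟩⟩
          simp only at h5
          rwa [if_pos h6, if_pos h6] at h5
        · rw [if_neg hs, if_neg hs]
  refine of_fac hK (key _ Finset.univ rfl) fun z z' hz => ?_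
  funext s
  have h1 := congrFun hz s
  rw [if_pos (Finset.mem_univ s), if_pos (Finset.mem_univ s)] at h1
  exact Option.some.inj h1

/-- Two known words whose letters are pairwise known together are known together. -/
theorem join {Ω : Type} {K : Pred Ω} (hK : Sys 3 Ω K) {ι κ X Y : Type} [Finite ι] [Finite κ] [Finite X] [Finite Y]
    {x : Ω → ι → X} {y : Ω → κ → Y} (hx : K _ x) (hy : K _ y)
    (h : ∀ i j, K _ fun z => (x z i, y z j)) : K _ fun z => (x z, y z) := by
  obtain ⟨en, hen⟩ : ∃ en : (ι → X) × (κ → Y) → ι ⊕ κ → X ⊕ Y,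
      en = fun w => Sum.elim (fun i => Sum.inl (w.1 i)) (fun j => Sum.inr (w.2 j)) := ⟨_, rfl⟩
  have hinj : Function.Injective en := by
    rintro ⟨a, b⟩ ⟨a', b'⟩ hw
    rw [hen] at hw
    refine Prod.ext (funext fun i => ?_) (funext fun j => ?_)
    · have := congrFun hw (Sum.inl i)
      simpa using this
    · have := congrFun hw (Sum.inr j)
      simpa using this
  refine of_inj hK hinj (pw hK _ fun s t => ?_)
  rw [hen]
  rcases s with s | s <;> rcases t with t | t
  · exact hK.comp _ _ _ (fun w => ((Sum.inl (w s) : X ⊕ Y), (Sum.inl (w t) : X ⊕ Y))) hx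
  · exact hK.comp _ _ _ (fun w => ((Sum.inl w.1 : X ⊕ Y), (Sum.inr w.2 : X ⊕ Y))) (h s t)
  · exact hK.comp _ _ _ (fun w => ((Sum.inr w.2 : X ⊕ Y), (Sum.inl w.1 : X ⊕ Y))) (h t s)
  · exact hK.comp _ _ _ (fun w => ((Sum.inr (w s) : X ⊕ Y), (Sum.inr (w t) : X ⊕ Y))) hy

/-- The relation of two known words. -/
theorem bi_of {Ω : Type} {K : Pred Ω} (hK : Sys 3 Ω K) {X Y : Type} {x : Ω → X} {y : Ω → Y}
    (hx : K _ x) (hy : K _ y) :
    Bi fun (F : X → ZMod 3) (G : Y → ZMod 2) => K _ fun z => (F (x z), G (y z)) where
  zl := fun G => hK.comp _ _ _ (fun w => ((0 : ZMod 3), G w)) hy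
  zr := fun F => hK.comp _ _ _ (fun w => (F w, (0 : ZMod 2))) hx
  addl := fun F F' _ h h' =>
    hK.comp _ _ _ (fun w : ZMod 3 × ZMod 3 × ZMod 2 => (w.1 + w.2.1, w.2.2))
      (tri hK (hK.comp _ _ _ (fun w => (F w, F' w)) hx) h h')
  subl := fun F F' _ h h' =>
    hK.comp _ _ _ (fun w : ZMod 3 × ZMod 3 × ZMod 2 => (w.1 - w.2.1, w.2.2))
      (tri hK (hK.comp _ _ _ (fun w => (F w, F' w)) hx) h h')
  addr := fun _ G G' h h' =>
    hK.comp _ _ _ (fun w : ZMod 3 × ZMod 2 × ZMod 2 => (w.1, w.2.1 + w.2.2))
      (tri hK h h' (hK.comp _ _ _ (fun w => (G w, G' w)) hy))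
  subr := fun _ G G' h h' =>
    hK.comp _ _ _ (fun w : ZMod 3 × ZMod 2 × ZMod 2 => (w.1, w.2.1 - w.2.2))
      (tri hK h h' (hK.comp _ _ _ (fun w => (G w, G' w)) hy))

end H38S
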